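import Pool.Agent.H396Z.FPP.Dist

set_option autoImplicit false

namespace Pool.Agent.Results.MP_79314c_pr.NeverMonotone

open MeasureTheory Pool.Agent.H396Z.FPP
open scoped NNReal

/-- Negative answer to Q1: in dimension `d = 2` there is a distribution `F` on `[0, ∞)` such that
for every `n ≥ 1` some `t` satisfies `P[a_{0,n} > t] > P[a_{0,n+1} > t]`, where
`a_{0,n} = T(0, n e₁)`. -/
theorem result : ∃ F : Measure ℝ≥0, IsProbabilityMeasure F ∧ ∀ n : ℕ, 1 ≤ n → ∃ t : ℝ,
    weightLaw 2 F {τ | t < (passageTime τ 0 (Pi.single 0 ((n : ℤ) + 1)) : ℝ)} <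
      weightLaw 2 F {τ | t < (passageTime τ 0 (Pi.single 0 (n : ℤ)) : ℝ)} :=
  Pool.Agent.H396Z.FPP.main

end Pool.Agent.Results.MP_79314c_pr.NeverMonotone
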